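import Mathlib
import Pool.Agent.H50R3.Flux
import Pool.Agent.H50R3.Cartier

/-!
# Automorphisms of free associative algebras in positive characteristic

Over a field of characteristic `p > 0` and for every `n ≥ 3` the group `Aut K⟨x_1, …, x_n⟩`, and
even its subgroup of tame automorphisms, is not generated by the affine automorphisms together with
a finite set of tame automorphisms.
-/

set_option autoImplicit false

namespace Pool.Agent.Results.MP_119ce6_al.NoFiniteTameSet

open MvPolynomial Pool.Agent.H50R3.Flux Pool.Agent.H50R3.Cartier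

/-- the group of `K`-algebra automorphisms of the free associative unital algebra on `x_0, …,
x_{n-1}` (multiplication is composition) -/
abbrev AutFree (K : Type*) [Field K] (n : ℕ) : Type _ :=
  FreeAlgebra K (Fin n) ≃ₐ[K] FreeAlgebra K (Fin n)

/-- an automorphism is affine if it maps every `x_i` to `∑ j, A i j • x_j + b_i` for some
`A ∈ GL_n(K)` and some scalars `b_i` -/
def IsAffine {K : Type*} [Field K] {n : ℕ} (φ : AutFree K n) : Prop :=
  ∃ (A : Matrix.GeneralLinearGroup (Fin n) K) (b : Fin n → K), ∀ i : Fin n,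
    φ (FreeAlgebra.ι K i)
      = ∑ j : Fin n, A.1 i j • FreeAlgebra.ι K j + algebraMap K (FreeAlgebra K (Fin n)) (b i)

/-- `φ` maps the generator `x_k` to `x_k + f` and fixes all the other generators -/
def IsShear {K : Type*} [Field K] {n : ℕ} (k : Fin n) (f : FreeAlgebra K (Fin n))
    (φ : AutFree K n) : Prop :=
  φ (FreeAlgebra.ι K k) = FreeAlgebra.ι K k + f ∧
    ∀ i : Fin n, i ≠ k → φ (FreeAlgebra.ι K i) = FreeAlgebra.ι K i

/-- an automorphism is elementary if it adds to one generator a polynomial in the other generators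
and fixes the other generators -/
def IsElementary {K : Type*} [Field K] {n : ℕ} (φ : AutFree K n) : Prop :=
  ∃ (k : Fin n) (f : FreeAlgebra K (Fin n)),
    f ∈ Algebra.adjoin K (FreeAlgebra.ι K '' {i : Fin n | i ≠ k}) ∧ IsShear k f φ

/-- the group of tame automorphisms, generated by the affine and the elementary ones -/
def Tame (K : Type*) [Field K] (n : ℕ) : Subgroup (AutFree K n) :=
  Subgroup.closure {φ | IsAffine φ ∨ IsElementary φ}

section

variable {K : Type*} [Field K] {m : ℕ}

/-- evaluation at the standard commuting tuple `(x_0, …, x_{m-1}, 0)` -/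
noncomputable def ev (K : Type*) [Field K] (m : ℕ) :
    FreeAlgebra K (Fin (m + 1)) →ₐ[K] MvPolynomial (Fin m) K :=
  FreeAlgebra.lift K (Fin.snoc (fun i : Fin m => (X i : MvPolynomial (Fin m) K)) 0)

/-- the tuple attached to an automorphism -/
noncomputable def tup (φ : AutFree K (m + 1)) : Fin (m + 1) → MvPolynomial (Fin m) K :=
  fun i => ev K m (φ (FreeAlgebra.ι K i))

theorem tup_mul (φ g : AutFree K (m + 1)) (i : Fin (m + 1)) :
    tup (φ * g) i = FreeAlgebra.lift K (tup φ) (g (FreeAlgebra.ι K i)) := by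
  have h : FreeAlgebra.lift K (tup φ) = (ev K m).comp (φ : FreeAlgebra K (Fin (m + 1)) →ₐ[K]
      FreeAlgebra K (Fin (m + 1))) := by
    apply FreeAlgebra.hom_ext
    funext j
    simp [tup]
  rw [h]
  rfl

/-- polynomials of degree at most `d` in the generators `x_0, …, x_{m-1}` -/
def low (K : Type*) [Field K] (m d : ℕ) : Submodule K (FreeAlgebra K (Fin (m + 1))) :=
  Submodule.span K {w | ∃ l : List (Fin m), l.length ≤ d ∧
    w = (l.map fun i => FreeAlgebra.ι K i.castSucc).prod}

/-- the group generated by the affine automorphisms and the elementary ones of degree at most `d`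
which move the last generator -/
def B (K : Type*) [Field K] (m d : ℕ) : Subgroup (AutFree K (m + 1)) :=
  Subgroup.closure {g | IsAffine g ∨ ∃ f ∈ low K m d, IsShear (Fin.last m) f g}

theorem low_mono {d d' : ℕ} (h : d ≤ d') : low K m d ≤ low K m d' :=
  Submodule.span_mono fun _ ⟨l, hl, hw⟩ => ⟨l, hl.trans h, hw⟩

theorem B_mono {d d' : ℕ} (h : d ≤ d') : B K m d ≤ B K m d' := by
  apply Subgroup.closure_mono
  rintro g (hg | ⟨f, hf, hg⟩)
  · exact Or.inl hg
  · exact Or.inr ⟨f, low_mono h hf, hg⟩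

theorem low_mul {d d' : ℕ} {f g : FreeAlgebra K (Fin (m + 1))} (hf : f ∈ low K m d)
    (hg : g ∈ low K m d') : f * g ∈ low K m (d + d') := by
  induction hf using Submodule.span_induction with
  | mem x hx =>
    obtain ⟨l, hl, rfl⟩ := hx
    induction hg using Submodule.span_induction with
    | mem y hy =>
      obtain ⟨l', hl', rfl⟩ := hy
      refine Submodule.subset_span ⟨l ++ l', ?_, ?_⟩
      · rw [List.length_append]; omega
      · rw [List.map_append, List.prod_append]
    | zero => rw [mul_zero]; exact zero_mem _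
    | add a b _ _ ha hb => rw [mul_add]; exact add_mem ha hb
    | smul c a _ ha => rw [mul_smul_comm]; exact Submodule.smul_mem _ c ha
  | zero => rw [zero_mul]; exact zero_mem _
  | add a b _ _ ha hb => rw [add_mul]; exact add_mem ha hb
  | smul c a _ ha => rw [smul_mul_assoc]; exact Submodule.smul_mem _ c ha

theorem adjoin_low (f : FreeAlgebra K (Fin (m + 1)))
    (hf : f ∈ Algebra.adjoin K (FreeAlgebra.ι K '' {i : Fin (m + 1) | i ≠ Fin.last m})) :
    ∃ d, f ∈ low K m d := by
  induction hf using Algebra.adjoin_induction with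
  | mem x hx =>
    obtain ⟨i, hi, rfl⟩ := hx
    refine ⟨1, Submodule.subset_span ⟨[i.castPred hi], by simp, ?_⟩⟩
    simp
  | algebraMap r =>
    refine ⟨0, ?_⟩
    rw [Algebra.algebraMap_eq_smul_one]
    exact Submodule.smul_mem _ _ (Submodule.subset_span ⟨[], by simp, by simp⟩)
  | add x y _ _ hx hy =>
    obtain ⟨d, hd⟩ := hx
    obtain ⟨d', hd'⟩ := hy
    exact ⟨max d d', add_mem (low_mono (le_max_left _ _) hd) (low_mono (le_max_right _ _) hd')⟩
  | mul x y _ _ hx hy =>
    obtain ⟨d, hd⟩ := hx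
    obtain ⟨d', hd'⟩ := hy
    exact ⟨d + d', low_mul hd hd'⟩

/-! ### every tame automorphism lies in some `B d` -/

/-- the automorphism permuting the generators -/
noncomputable def perm (K : Type*) [Field K] {n : ℕ} (e : Equiv.Perm (Fin n)) : AutFree K n :=
  AlgEquiv.ofAlgHom (FreeAlgebra.lift K fun i => FreeAlgebra.ι K (e i))
    (FreeAlgebra.lift K fun i => FreeAlgebra.ι K (e.symm i))
    (by apply FreeAlgebra.hom_ext; funext i; simp)
    (by apply FreeAlgebra.hom_ext; funext i; simp)

theorem perm_apply {n : ℕ} (e : Equiv.Perm (Fin n)) (i : Fin n) :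
    perm K e (FreeAlgebra.ι K i) = FreeAlgebra.ι K (e i) := by
  show FreeAlgebra.lift K (fun i => FreeAlgebra.ι K (e i)) (FreeAlgebra.ι K i) = _
  simp

theorem perm_affine {n : ℕ} (e : Equiv.Perm (Fin n)) : IsAffine (perm K e) := by
  classical
  have hdet : IsUnit (e.toPEquiv.toMatrix : Matrix (Fin n) (Fin n) K).det := by
    rw [Matrix.det_permutation]
    rcases Int.units_eq_one_or (Equiv.Perm.sign e) with h | h <;> simp [h]
  refine ⟨Matrix.GeneralLinearGroup.mk'' _ hdet, fun _ => 0, fun i => ?_⟩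
  rw [perm_apply, map_zero, add_zero]
  rw [Finset.sum_eq_single (e i)]
  · show FreeAlgebra.ι K (e i) = (e.toPEquiv.toMatrix : Matrix (Fin n) (Fin n) K) i (e i) • _
    simp [PEquiv.toMatrix_apply]
  · intro j _ hj
    show (e.toPEquiv.toMatrix : Matrix (Fin n) (Fin n) K) i j • _ = _
    simp [PEquiv.toMatrix_apply, hj.symm]
  · intro h; exact absurd (Finset.mem_univ _) h

theorem perm_mul_self {n : ℕ} (i j : Fin n) :
    perm K (Equiv.swap i j) * perm K (Equiv.swap i j) = 1 := by
  apply AlgEquiv.ext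
  intro x
  have h : ((perm K (Equiv.swap i j) * perm K (Equiv.swap i j) : AutFree K n) :
      FreeAlgebra K (Fin n) →ₐ[K] FreeAlgebra K (Fin n)) = AlgHom.id K _ := by
    apply FreeAlgebra.hom_ext
    funext l
    show perm K (Equiv.swap i j) (perm K (Equiv.swap i j) (FreeAlgebra.ι K l)) = _
    rw [perm_apply, perm_apply, Equiv.swap_apply_self]
    rfl
  exact DFunLike.congr_fun h x

theorem elementary_mem (g : AutFree K (m + 1)) (hg : IsElementary g) : ∃ d, g ∈ B K m d := by
  obtain ⟨k, f, hf, h1, h2⟩ := hg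
  let π : AutFree K (m + 1) := perm K (Equiv.swap k (Fin.last m))
  have hπ : ∀ i, π (FreeAlgebra.ι K i) = FreeAlgebra.ι K (Equiv.swap k (Fin.last m) i) :=
    fun i => perm_apply _ i
  have hππ : π * π = 1 := perm_mul_self k (Fin.last m)
  have hf' : π f ∈ Algebra.adjoin K (FreeAlgebra.ι K '' {i : Fin (m + 1) | i ≠ Fin.last m}) := by
    clear h1
    induction hf using Algebra.adjoin_induction with
    | mem x hx =>
      obtain ⟨i, hi, rfl⟩ := hx
      rw [hπ]
      refine Algebra.subset_adjoin ⟨_, ?_, rfl⟩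
      intro h
      apply hi
      rw [Equiv.swap_apply_eq_iff, Equiv.swap_apply_right] at h
      exact h
    | algebraMap r => rw [AlgEquiv.commutes]; exact Subalgebra.algebraMap_mem _ r
    | add x y _ _ hx hy => rw [map_add]; exact add_mem hx hy
    | mul x y _ _ hx hy => rw [map_mul]; exact mul_mem hx hy
  obtain ⟨d, hd⟩ := adjoin_low _ hf'
  refine ⟨d, ?_⟩
  have hπB : π ∈ B K m d := Subgroup.subset_closure (Or.inl (perm_affine _))
  have hsh : π * g * π ∈ B K m d := by
    apply Subgroup.subset_closure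
    refine Or.inr ⟨π f, hd, ?_, ?_⟩
    · show π (g (π (FreeAlgebra.ι K (Fin.last m)))) = _
      rw [hπ, Equiv.swap_apply_right, h1, map_add, hπ, Equiv.swap_apply_left]
    · intro i hi
      show π (g (π (FreeAlgebra.ι K i))) = _
      rw [hπ, h2, hπ, Equiv.swap_apply_self]
      intro h
      apply hi
      rw [Equiv.swap_apply_eq_iff, Equiv.swap_apply_left] at h
      exact h
  have : g = π * (π * g * π) * π := by
    calc g = (π * π) * g * (π * π) := by rw [hππ, one_mul, mul_one]
      _ = _ := by group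
  rw [this]
  exact mul_mem (mul_mem hπB hsh) hπB

theorem tame_mem (g : AutFree K (m + 1)) (hg : g ∈ Tame K (m + 1)) : ∃ d, g ∈ B K m d := by
  induction hg using Subgroup.closure_induction with
  | mem x hx =>
    rcases hx with h | h
    · exact ⟨0, Subgroup.subset_closure (Or.inl h)⟩
    · exact elementary_mem x h
  | one => exact ⟨0, one_mem _⟩
  | mul x y _ _ hx hy =>
    obtain ⟨d, hd⟩ := hx
    obtain ⟨d', hd'⟩ := hy
    exact ⟨max d d', mul_mem (B_mono (le_max_left _ _) hd) (B_mono (le_max_right _ _) hd')⟩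
  | inv x _ hx =>
    obtain ⟨d, hd⟩ := hx
    exact ⟨d, inv_mem hd⟩

/-! ### the invariant -/

theorem affine_step (q : ℕ) (hq : (q : K) = 0) (hm : 2 ≤ m) (g : AutFree K (m + 1))
    (hg : IsAffine g) :
    ∃ c : K, c ≠ 0 ∧ ∀ φ : AutFree K (m + 1),
      Phi K m q hq hm (tup (φ * g)) = c * Phi K m q hq hm (tup φ) := by
  obtain ⟨A, b, h⟩ := hg
  refine ⟨A.1.det, ?_, fun φ => ?_⟩
  · have := (Matrix.isUnit_iff_isUnit_det A.1).mp A.isUnit
    exact this.ne_zero
  · have h1 : tup (φ * g) = fun i => (∑ j, A.1 i j • tup φ j) + C (b i) := by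
      funext i
      rw [tup_mul, h i, map_add, map_sum, AlgHom.commutes]
      simp only [map_smul, FreeAlgebra.lift_ι_apply]
      rfl
    rw [h1, Phi_translate q hq hm, Phi_linear q hq hm]

theorem list_prod_eq (l : List (Fin m)) (y : Fin m → MvPolynomial (Fin m) K) :
    (l.map y).prod = ∏ i, y i ^ l.count i := by
  induction l with
  | nil => simp
  | cons a l ih =>
    rw [List.map_cons, List.prod_cons, ih, ← Finset.mul_prod_erase _ _ (Finset.mem_univ a),
      ← Finset.mul_prod_erase _ (fun i => y i ^ (a :: l).count i) (Finset.mem_univ a)]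
    rw [List.count_cons_self, pow_succ]
    have : ∏ x ∈ Finset.univ.erase a, y x ^ (a :: l).count x
        = ∏ x ∈ Finset.univ.erase a, y x ^ l.count x := by
      refine Finset.prod_congr rfl fun i hi => ?_
      rw [List.count_cons_of_ne (Finset.ne_of_mem_erase hi).symm]
    rw [this]
    ring

theorem shear_step (p : ℕ) [Fact p.Prime] [CharP K p] (k : ℕ) (hq : ((p ^ k : ℕ) : K) = 0)
    (hm : 2 ≤ m) (d : ℕ) (hd : d + 1 < p ^ k) (f : FreeAlgebra K (Fin (m + 1)))
    (hf : f ∈ low K m d) (g : AutFree K (m + 1)) (hg : IsShear (Fin.last m) f g)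
    (φ : AutFree K (m + 1)) :
    Phi K m (p ^ k) hq hm (tup (φ * g)) = Phi K m (p ^ k) hq hm (tup φ) := by
  obtain ⟨h1, h2⟩ := hg
  have h3 : tup (φ * g) = Function.update (tup φ) (Fin.last m)
      (tup φ (Fin.last m) + FreeAlgebra.lift K (tup φ) f) := by
    funext i
    by_cases hi : i = Fin.last m
    · subst hi
      rw [tup_mul, h1, Function.update_self, map_add, FreeAlgebra.lift_ι_apply]
    · rw [tup_mul, h2 i hi, Function.update_of_ne hi, FreeAlgebra.lift_ι_apply]
  rw [h3, Phi_apply, Phi_apply, upd_last, Function.update_self, add_mul, coeff_add]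
  have h4 : ∀ f ∈ low K m d, coeff (pp m (p ^ k)) (FreeAlgebra.lift K (tup φ) f *
      jac fun i : Fin m => tup φ i.castSucc) = 0 := by
    intro f hf
    induction hf using Submodule.span_induction with
    | mem x hx =>
      obtain ⟨l, hl, rfl⟩ := hx
      have h5 : FreeAlgebra.lift K (tup φ) (l.map fun i => FreeAlgebra.ι K i.castSucc).prod
          = (l.map fun i => tup φ i.castSucc).prod := by
        rw [map_list_prod, List.map_map]
        congr 2
        funext i
        simp
      rw [h5, list_prod_eq]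
      apply coeff_zero_of p (by omega) k
      refine ⟨⟨0, by omega⟩, fun h => ?_⟩
      have h6 := Nat.le_of_dvd (Nat.succ_pos _) h
      have h7 : l.count (⟨0, by omega⟩ : Fin m) ≤ l.length := List.count_le_length
      omega
    | zero => rw [map_zero, zero_mul, coeff_zero]
    | add a b _ _ ha hb => rw [map_add, add_mul, coeff_add, ha, hb, add_zero]
    | smul c a _ ha => rw [map_smul, smul_mul_assoc, coeff_smul, ha, smul_zero]
  rw [h4 f hf, add_zero]

theorem Phi_B (p : ℕ) [Fact p.Prime] [CharP K p] (k : ℕ) (hq : ((p ^ k : ℕ) : K) = 0)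
    (hm : 2 ≤ m) (d : ℕ) (hd : d + 1 < p ^ k) (φ : AutFree K (m + 1)) (hφ : φ ∈ B K m d) :
    Phi K m (p ^ k) hq hm (tup φ) = 0 := by
  have step : ∀ g ∈ {g : AutFree K (m + 1) | IsAffine g ∨ ∃ f ∈ low K m d,
      IsShear (Fin.last m) f g}, ∃ c : K, c ≠ 0 ∧ ∀ φ : AutFree K (m + 1),
      Phi K m (p ^ k) hq hm (tup (φ * g)) = c * Phi K m (p ^ k) hq hm (tup φ) := by
    rintro g (h | ⟨f, hf, h⟩)
    · exact affine_step _ hq _ g h
    · exact ⟨1, one_ne_zero, fun φ => by rw [shear_step p k hq hm d hd f hf g h φ, one_mul]⟩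
  induction hφ using Subgroup.closure_induction_right with
  | one =>
    have h : tup (1 : AutFree K (m + 1))
        = Fin.snoc (fun i : Fin m => (X i : MvPolynomial (Fin m) K)) 0 := by
      funext i
      simp [tup, ev]
    rw [h, Phi_zero]
  | mul_right x hx y hy ih =>
    obtain ⟨c, -, hc⟩ := step y hy
    rw [hc, ih, mul_zero]
  | mul_inv_cancel x hx y hy ih =>
    obtain ⟨c, hc0, hc⟩ := step y hy
    have h := hc (x * y⁻¹)
    rw [inv_mul_cancel_right, ih] at h
    exact (mul_eq_zero.mp h.symm).resolve_left hc0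

/-- elementary automorphisms exist -/
theorem exists_shear (f : FreeAlgebra K (Fin (m + 1)))
    (hf : f ∈ Algebra.adjoin K (FreeAlgebra.ι K '' {i : Fin (m + 1) | i ≠ Fin.last m})) :
    ∃ φ : AutFree K (m + 1), IsShear (Fin.last m) f φ := by
  let F : FreeAlgebra K (Fin (m + 1)) → FreeAlgebra K (Fin (m + 1)) →ₐ[K]
      FreeAlgebra K (Fin (m + 1)) := fun f => FreeAlgebra.lift K (fun i =>
    if i = Fin.last m then FreeAlgebra.ι K (Fin.last m) + f else FreeAlgebra.ι K i)
  have hlast : ∀ f, F f (FreeAlgebra.ι K (Fin.last m)) = FreeAlgebra.ι K (Fin.last m) + f := by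
    intro f; simp [F]
  have hother : ∀ f (i : Fin (m + 1)), i ≠ Fin.last m →
      F f (FreeAlgebra.ι K i) = FreeAlgebra.ι K i := by
    intro f i hi; simp [F, hi]
  have hfix : ∀ g f : FreeAlgebra K (Fin (m + 1)),
      f ∈ Algebra.adjoin K (FreeAlgebra.ι K '' {i : Fin (m + 1) | i ≠ Fin.last m}) →
      F g f = f := by
    intro g f hf
    induction hf using Algebra.adjoin_induction with
    | mem x hx =>
      obtain ⟨i, hi, rfl⟩ := hx
      exact hother g _ hi
    | algebraMap r => exact AlgHom.commutes _ r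
    | add x y _ _ hx hy => rw [map_add, hx, hy]
    | mul x y _ _ hx hy => rw [map_mul, hx, hy]
  have hcomp : ∀ f : FreeAlgebra K (Fin (m + 1)),
      f ∈ Algebra.adjoin K (FreeAlgebra.ι K '' {i : Fin (m + 1) | i ≠ Fin.last m}) →
      (F f).comp (F (-f)) = AlgHom.id K _ := by
    intro f hf
    apply FreeAlgebra.hom_ext
    funext i
    show F f (F (-f) (FreeAlgebra.ι K i)) = FreeAlgebra.ι K i
    by_cases hi : i = Fin.last m
    · subst hi
      rw [hlast, map_add, map_neg, hlast, hfix f f hf]
      abel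
    · rw [hother _ i hi, hother _ i hi]
  refine ⟨AlgEquiv.ofAlgHom (F f) (F (-f)) (hcomp f hf) ?_, hlast f, fun i hi => hother f i hi⟩
  have := hcomp (-f) (neg_mem hf)
  rwa [neg_neg] at this

theorem main (p : ℕ) [Fact p.Prime] [CharP K p] (hm : 2 ≤ m) (d : ℕ) :
    ∃ τ ∈ Tame K (m + 1), τ ∉ B K m d := by
  have hp := (Fact.out : p.Prime)
  have hd : d + 1 < p ^ (d + 1) := Nat.lt_pow_self hp.one_lt
  have hq : ((p ^ (d + 1) : ℕ) : K) = 0 := by
    rw [Nat.cast_pow, CharP.cast_eq_zero, zero_pow (Nat.succ_ne_zero d)]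
  have hmem : (List.ofFn fun i : Fin m => FreeAlgebra.ι K i.castSucc).prod ^ (p ^ (d + 1) - 1) ∈
      Algebra.adjoin K (FreeAlgebra.ι K '' {i : Fin (m + 1) | i ≠ Fin.last m}) := by
    apply pow_mem
    apply list_prod_mem
    intro x hx
    rw [List.mem_ofFn] at hx
    obtain ⟨i, rfl⟩ := hx
    exact Algebra.subset_adjoin ⟨_, (Fin.castSucc_lt_last i).ne, rfl⟩
  obtain ⟨τ, h1, h2⟩ := exists_shear (K := K) (m := m) _ hmem
  refine ⟨τ, Subgroup.subset_closure (Or.inr ⟨Fin.last m, _, hmem, h1, h2⟩), fun h => ?_⟩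
  have h3 := Phi_B p (d + 1) hq hm d hd τ h
  have h4 : tup τ = Fin.snoc (fun i : Fin m => (X i : MvPolynomial (Fin m) K))
      ((∏ i : Fin m, X i) ^ (p ^ (d + 1) - 1)) := by
    funext i
    refine Fin.lastCases ?_ (fun k => ?_) i
    · rw [Fin.snoc_last]
      unfold tup
      rw [h1, map_add, map_pow, map_list_prod, List.map_ofFn]
      have h5 : (⇑(ev K m) ∘ fun i : Fin m => FreeAlgebra.ι K i.castSucc)
          = fun i => (X i : MvPolynomial (Fin m) K) := by
        funext i
        simp [ev]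
      rw [h5, List.prod_ofFn]
      simp [ev]
    · rw [Fin.snoc_castSucc]
      unfold tup
      rw [h2 _ (Fin.castSucc_lt_last k).ne]
      simp [ev]
  rw [h4, Phi_std _ hq _ (pow_pos hp.pos _)] at h3
  exact one_ne_zero h3

end

/-- Let `K` be a field of positive characteristic and `n ≥ 3`.  The automorphism `σ` with
`σ x_n = x_n + x_1 x_2` and `σ x_i = x_i` for `i ≠ n` exists and is tame, and for every finite set
`S` of tame automorphisms of `K⟨x_1, …, x_n⟩` (for instance `S = {σ}`) there is a tame automorphism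
which is not in the subgroup generated by the affine automorphisms and `S`.  In particular this
subgroup is not the whole automorphism group. -/
theorem result (K : Type*) [Field K] (p : ℕ) [CharP K p] (hp : 0 < p) (n : ℕ) (hn : 3 ≤ n) :
    (∃ σ ∈ Tame K n, IsShear (⟨n - 1, by omega⟩ : Fin n)
      (FreeAlgebra.ι K (⟨0, by omega⟩ : Fin n) * FreeAlgebra.ι K (⟨1, by omega⟩ : Fin n)) σ) ∧
    ∀ S : Set (AutFree K n), S.Finite → (∀ g ∈ S, g ∈ Tame K n) →
      ∃ τ ∈ Tame K n, τ ∉ Subgroup.closure ({g : AutFree K n | IsAffine g} ∪ S) := by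
  obtain ⟨m, rfl⟩ : ∃ m, n = m + 1 := ⟨n - 1, by omega⟩
  refine ⟨?_, fun S hS hT => ?_⟩
  · have hmem : FreeAlgebra.ι K (⟨0, by omega⟩ : Fin (m + 1)) *
        FreeAlgebra.ι K (⟨1, by omega⟩ : Fin (m + 1)) ∈
        Algebra.adjoin K (FreeAlgebra.ι K '' {i : Fin (m + 1) | i ≠ Fin.last m}) := by
      apply mul_mem
      · refine Algebra.subset_adjoin ⟨_, ?_, rfl⟩
        simp only [Set.mem_setOf_eq, ne_eq, Fin.ext_iff, Fin.val_last]
        omega
      · refine Algebra.subset_adjoin ⟨_, ?_, rfl⟩
        simp only [Set.mem_setOf_eq, ne_eq, Fin.ext_iff, Fin.val_last]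
        omega
    obtain ⟨σ, hσ⟩ := exists_shear (K := K) (m := m) _ hmem
    exact ⟨σ, Subgroup.subset_closure (Or.inr ⟨Fin.last m, _, hmem, hσ⟩), hσ⟩
  · have : Fact p.Prime := ⟨(CharP.char_is_prime_or_zero K p).resolve_right hp.ne'⟩
    choose! D hD using fun g hg => tame_mem g (hT g hg)
    obtain ⟨τ, h1, h2⟩ := main (K := K) p (m := m) (by omega) (hS.toFinset.sup D)
    refine ⟨τ, h1, fun h => h2 ?_⟩
    have hle : Subgroup.closure ({g : AutFree K (m + 1) | IsAffine g} ∪ S)
        ≤ B K m (hS.toFinset.sup D) := by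
      apply (Subgroup.closure_le _).mpr
      rintro g (hg | hg)
      · exact Subgroup.subset_closure (Or.inl hg)
      · exact B_mono (Finset.le_sup (hS.mem_toFinset.mpr hg)) (hD g hg)
    exact hle h

end Pool.Agent.Results.MP_119ce6_al.NoFiniteTameSet
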